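import Pool.Agent.Helper5.SR.St3

/-!
# Project SR, module ATB: boundary behaviour of the attaching map
-/

set_option autoImplicit false

namespace Pool.Agent.Helper72.SR

open Helper5.SR Pool.Agent.Helper51.LT
open Complex MeasureTheory Set Metric Filter Topology
open scoped Real

/-- chord at most arc -/
theorem chord_ATB (s t : ℝ) : ‖exp (s * I) - exp (t * I)‖ ≤ |s - t| := by
  have h1 : exp (s * I) - exp (t * I) = exp (t * I) * (exp (I * ((s - t : ℝ) : ℂ)) - 1) := by
    rw [mul_sub, ← Complex.exp_add, mul_one]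
    congr 2
    push_cast
    ring
  rw [h1, norm_mul, Complex.norm_exp_ofReal_mul_I, one_mul]
  have := Real.norm_exp_I_mul_ofReal_sub_one_le (x := s - t)
  rwa [Real.norm_eq_abs] at this

/-- equality of points of the circle with close angles -/
theorem ang_ATB {s t : ℝ} (h : exp (s * I) = exp (t * I)) (hst : |s - t| < 1) : s = t := by
  rw [Complex.exp_eq_exp_iff_exists_int] at h
  obtain ⟨n, hn⟩ := h
  have h1 : ((s - t : ℝ) : ℂ) * I = ((n * (2 * π) : ℝ) : ℂ) * I := by
    push_cast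
    linear_combination hn
  have h2 : s - t = n * (2 * π) := by
    have := mul_right_cancel₀ I_ne_zero h1
    exact_mod_cast this
  have hpi : (3 : ℝ) < π := Real.pi_gt_three
  have hn0 : n = 0 := by
    by_contra hn0
    have h3 : (1 : ℝ) ≤ |(n : ℝ)| := by
      have : (1 : ℤ) ≤ |n| := Int.one_le_abs hn0
      exact_mod_cast this
    have h4 : |s - t| = |(n : ℝ)| * (2 * π) := by
      rw [h2, abs_mul, abs_of_pos (by positivity : (0 : ℝ) < 2 * π)]
    nlinarith
  rw [hn0] at h2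
  simp at h2
  linarith

theorem JJ_line_ATB {ε L v : ℝ} (hL : 0 < L) (hv : v ≠ 0) :
    JJ ε L (v * I) = ((-(ε / v + v) / L : ℝ) : ℂ) * I := by
  unfold JJ
  have hv' : (v : ℂ) ≠ 0 := by exact_mod_cast hv
  have hL' : (L : ℂ) ≠ 0 := by exact_mod_cast hL.ne'
  push_cast
  field_simp
  ring_nf
  simp only [I_sq]
  ring

theorem JJ_sub_ATB {ε L : ℝ} {W W' : ℂ} (hW : W ≠ 0) (hW' : W' ≠ 0) :
    JJ ε L W - JJ ε L W' = -((W - W') * (ε / (W * W') + 1) / L) := by
  unfold JJ
  by_cases hL : (L : ℂ) = 0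
  · rw [hL]; simp
  · field_simp
    ring

theorem JJ_re_ATB (ε L : ℝ) (W : ℂ) :
    (JJ ε L W).re = W.re * (ε / ‖W‖ ^ 2 - 1) / L := by
  unfold JJ
  have h1 : ((ε : ℂ) / W - W) / (L : ℂ) = ((ε : ℂ) / W - W) * ((L⁻¹ : ℝ) : ℂ) := by
    rw [div_eq_mul_inv]; push_cast; rfl
  rw [h1, Complex.re_mul_ofReal, Complex.sub_re]
  have h2 : ((ε : ℂ) / W).re = ε * W.re / ‖W‖ ^ 2 := by
    rw [Complex.div_re, Complex.ofReal_re, Complex.ofReal_im, Complex.normSq_eq_norm_sq]
    ring
  rw [h2]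
  ring

theorem hAtb (hSsf : StSsf) : StAtb := by
  obtain ⟨hS1, hS0, hSinj, hS2⟩ := hSsf
  intro f a θ δ κ Λ ε L hf hε hL
  obtain ⟨hUn, hf0, hinj, hlip, hκ, hder, hre, hδ, hline⟩ := hf
  have hsq : 0 < √ε := Real.sqrt_pos.2 hε
  have hsqsq : √ε * √ε = ε := Real.mul_self_sqrt hε.le
  have hL0 : 0 < L := by linarith
  have hmem : ∀ t : ℝ, exp (t * I) ∈ closedBall (0 : ℂ) 1 := by
    intro t
    rw [mem_closedBall_zero_iff, Complex.norm_exp_ofReal_mul_I]
  have hΛ : 0 < Λ := by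
    have h1 : (0 : ℂ) ∈ closedBall (0 : ℂ) 1 := by simp
    have h2 : (1 : ℂ) ∈ closedBall (0 : ℂ) 1 := by simp
    have h3 := hlip 0 h1 1 h2
    have h4 : f 0 ≠ f 1 := fun h => by
      have := hinj h1 h2 h
      exact zero_ne_one this
    have h5 : 0 < ‖f 0 - f 1‖ := norm_pos_iff.2 (sub_ne_zero.2 h4)
    have h6 : ‖(0 : ℂ) - 1‖ = 1 := by simp
    rw [h6, mul_one] at h3
    linarith
  -- the choice of `δ'`
  obtain ⟨d, hd0, hdδ, hd1, hd2, hd3⟩ : ∃ d : ℝ, 0 < d ∧ d ≤ δ ∧ d ≤ 1 ∧ Λ * d ≤ √ε / 2 ∧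
      Λ * d * L < ε := by
    refine ⟨min (min δ 1) (min (√ε / (2 * Λ)) (ε / (2 * Λ * L))), ?_, ?_, ?_, ?_, ?_⟩
    · refine lt_min (lt_min hδ one_pos) (lt_min (by positivity) (by positivity))
    · exact (min_le_left _ _).trans (min_le_left _ _)
    · exact (min_le_left _ _).trans (min_le_right _ _)
    · have h1 : min (min δ 1) (min (√ε / (2 * Λ)) (ε / (2 * Λ * L))) ≤ √ε / (2 * Λ) :=
        (min_le_right _ _).trans (min_le_left _ _)
      calc Λ * min (min δ 1) (min (√ε / (2 * Λ)) (ε / (2 * Λ * L))) ≤ Λ * (√ε / (2 * Λ)) :=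
            mul_le_mul_of_nonneg_left h1 hΛ.le
        _ = √ε / 2 := by field_simp
    · have h1 : min (min δ 1) (min (√ε / (2 * Λ)) (ε / (2 * Λ * L))) ≤ ε / (2 * Λ * L) :=
        (min_le_right _ _).trans (min_le_right _ _)
      calc Λ * min (min δ 1) (min (√ε / (2 * Λ)) (ε / (2 * Λ * L))) * L
          ≤ Λ * (ε / (2 * Λ * L)) * L :=
            mul_le_mul_of_nonneg_right (mul_le_mul_of_nonneg_left h1 hΛ.le) hL0.le
        _ = ε / 2 := by field_simp
        _ < ε := by linarith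
  set w : ℂ := f (exp (θ * I)) with hw
  let v : ℝ → ℝ := fun t => (w - f (exp (t * I))).im
  let y : ℝ → ℝ := fun t => -(ε / v t + v t) / L
  have hwre : w.re = a := hline θ (by simpa using hδ.le)
  -- facts on the arc
  have harc : ∀ t ∈ Ioo θ (θ + d), |t - θ| < d := by
    intro t ht
    rw [abs_of_pos (by linarith [ht.1])]
    linarith [ht.2]
  have hWv : ∀ t ∈ Ioo θ (θ + d), w - f (exp (t * I)) = (v t : ℂ) * I := by
    intro t ht
    have h1 := hline t ((harc t ht).le.trans hdδ)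
    apply Complex.ext
    · rw [Complex.sub_re, hwre, h1]
      simp
    · simp [v]
  have hvnorm : ∀ t ∈ Ioo θ (θ + d), |v t| = ‖w - f (exp (t * I))‖ := by
    intro t ht
    rw [hWv t ht, norm_mul, Complex.norm_I, mul_one, Complex.norm_real, Real.norm_eq_abs]
  have hvle : ∀ t ∈ Ioo θ (θ + d), |v t| ≤ Λ * d := by
    intro t ht
    rw [hvnorm t ht]
    refine (hlip _ (hmem θ) _ (hmem t)).trans (mul_le_mul_of_nonneg_left ?_ hΛ.le)
    refine (chord_ATB θ t).trans ?_
    rw [abs_sub_comm]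
    exact (harc t ht).le
  have hvne : ∀ t ∈ Ioo θ (θ + d), v t ≠ 0 := by
    intro t ht h0
    have h1 : w - f (exp (t * I)) = 0 := by rw [hWv t ht, h0]; simp
    have h2 : exp (θ * I) = exp (t * I) := hinj (hmem θ) (hmem t) (sub_eq_zero.1 h1)
    have h3 : θ = t := ang_ATB h2 (by rw [abs_sub_comm]; exact (harc t ht).trans_le hd1)
    linarith [ht.1]
  have hy1 : ∀ t ∈ Ioo θ (θ + d), 1 < |y t| := by
    intro t ht
    have hv0 : 0 < |v t| := abs_pos.2 (hvne t ht)
    have h1 : |y t| = (ε / |v t| + |v t|) / L := by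
      show |-(ε / v t + v t) / L| = _
      rw [abs_div, abs_neg, abs_of_pos hL0]
      congr 1
      rcases lt_or_gt_of_ne (hvne t ht) with h | h
      · rw [abs_of_neg h, abs_of_neg]
        · rw [div_neg]; ring
        · have : ε / v t < 0 := div_neg_of_pos_of_neg hε h
          linarith
      · rw [abs_of_pos h, abs_of_pos]
        have : 0 < ε / v t := div_pos hε h
        linarith
    rw [h1, lt_div_iff₀ hL0, one_mul]
    have h2 : |v t| * L < ε := by
      calc |v t| * L ≤ Λ * d * L := mul_le_mul_of_nonneg_right (hvle t ht) hL0.le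
        _ < ε := hd3
    have h3 : L < ε / |v t| := by
      rw [lt_div_iff₀ hv0]; linarith
    linarith
  -- the choice of `ξ`
  have hex : ∀ t : ℝ, ∃ ξ : ℂ, t ∈ Ioo θ (θ + d) → ‖ξ‖ = 1 ∧ 2 * ξ = (y t : ℂ) * I * (1 - ξ ^ 2) ∧
      ∃ c C : ℝ, 0 < c ∧ 0 < C ∧ ∀ Y : ℂ, 0 < Y.re → ‖Y - (y t : ℂ) * I‖ ≤ c →
        ‖SS Y - ξ‖ ≤ C * ‖Y - (y t : ℂ) * I‖ ∧ c ≤ ‖deriv SS Y‖ := by
    intro t
    by_cases ht : t ∈ Ioo θ (θ + d)
    · obtain ⟨ξ, h1, h2, h3⟩ := hS2 (y t) (hy1 t ht)
      exact ⟨ξ, fun _ => ⟨h1, h2, h3⟩⟩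
    · exact ⟨0, fun h => absurd h ht⟩
  choose ξ hξ using hex
  refine ⟨d, hd0, hd1, ξ, ?_, ?_⟩
  · -- injectivity
    intro t ht t' ht' htt
    obtain ⟨h1, h2, -⟩ := hξ t ht
    obtain ⟨-, h3, -⟩ := hξ t' ht'
    rw [← htt, h2] at h3
    have hne : (1 : ℂ) - ξ t ^ 2 ≠ 0 := by
      intro h0
      rw [h0, mul_zero] at h2
      have h4 : ξ t = 0 := by
        rcases mul_eq_zero.1 h2 with h | h
        · norm_num at h
        · exact h
      rw [h4] at h1
      simp at h1
    have h4 : (y t : ℂ) * I = (y t' : ℂ) * I := mul_right_cancel₀ hne h3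
    have h5 : y t = y t' := by
      have := mul_right_cancel₀ I_ne_zero h4
      exact_mod_cast this
    have h6 : ε / v t + v t = ε / v t' + v t' := by
      have h7 : -(ε / v t + v t) / L = -(ε / v t' + v t') / L := h5
      have h8 := (div_left_inj' hL0.ne').1 h7
      linarith
    have hv0 := hvne t ht
    have hv0' := hvne t' ht'
    have h9 : (v t - v t') * (v t * v t' - ε) = 0 := by
      have h10 : (ε / v t + v t) * (v t * v t') = (ε / v t' + v t') * (v t * v t') := by rw [h6]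
      have h11 : (ε / v t + v t) * (v t * v t') = ε * v t' + v t * v t * v t' := by
        field_simp
      have h12 : (ε / v t' + v t') * (v t * v t') = ε * v t + v t' * v t * v t' := by
        field_simp
      rw [h11, h12] at h10
      linear_combination h10
    have h13 : v t * v t' < ε := by
      have h14 : v t * v t' ≤ |v t| * |v t'| := by
        rw [← abs_mul]; exact le_abs_self _
      have h15 : |v t| * |v t'| ≤ (√ε / 2) * (√ε / 2) :=
        mul_le_mul ((hvle t ht).trans hd2) ((hvle t' ht').trans hd2) (abs_nonneg _) (by positivity)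
      nlinarith
    have h16 : v t = v t' := by
      rcases mul_eq_zero.1 h9 with h | h
      · linarith
      · linarith
    have h17 : f (exp (t * I)) = f (exp (t' * I)) := by
      have h18 := hWv t ht
      have h19 := hWv t' ht'
      rw [h16, ← h19] at h18
      exact sub_right_injective h18
    have h20 := hinj (hmem t) (hmem t') h17
    refine ang_ATB h20 ?_
    rw [abs_lt]
    constructor <;> linarith [ht.1, ht.2, ht'.1, ht'.2]
  · intro t ht
    obtain ⟨h1, -, c₁, C₁, hc₁, hC₁, hloc⟩ := hξ t ht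
    refine ⟨h1, ?_⟩
    have hv0 : 0 < |v t| := abs_pos.2 (hvne t ht)
    set V : ℝ := |v t| with hV
    have hVle : V ≤ √ε / 2 := (hvle t ht).trans hd2
    have hV2 : V * V ≤ ε / 4 := by
      have := mul_le_mul hVle hVle hv0.le (by positivity)
      nlinarith
    set C₂ : ℝ := Λ * (2 * ε / (V * V) + 1) / L with hC₂
    have hC₂0 : 0 < C₂ := by positivity
    refine ⟨min (min (V / (4 * Λ)) (c₁ / C₂)) (c₁ * κ / L), C₁ * C₂, ?_, by positivity, ?_⟩
    · exact lt_min (lt_min (by positivity) (by positivity)) (by positivity)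
    intro x hx hxt
    have hx1 : ‖x - exp (t * I)‖ ≤ V / (4 * Λ) :=
      hxt.trans ((min_le_left _ _).trans (min_le_left _ _))
    have hx2 : ‖x - exp (t * I)‖ ≤ c₁ / C₂ :=
      hxt.trans ((min_le_left _ _).trans (min_le_right _ _))
    have hxc : x ∈ closedBall (0 : ℂ) 1 := ball_subset_closedBall hx
    set W : ℂ := w - f x with hW
    have hWsub : W - (v t : ℂ) * I = f (exp (t * I)) - f x := by
      rw [← hWv t ht, hW]; ring
    have hWd : ‖W - (v t : ℂ) * I‖ ≤ Λ * ‖x - exp (t * I)‖ := by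
      rw [hWsub]
      have := hlip _ (hmem t) _ hxc
      rwa [norm_sub_rev (exp (t * I)) x] at this
    have hWd4 : ‖W - (v t : ℂ) * I‖ ≤ V / 4 := by
      calc ‖W - (v t : ℂ) * I‖ ≤ Λ * ‖x - exp (t * I)‖ := hWd
        _ ≤ Λ * (V / (4 * Λ)) := mul_le_mul_of_nonneg_left hx1 hΛ.le
        _ = V / 4 := by field_simp
    have hvI : ‖(v t : ℂ) * I‖ = V := by
      rw [norm_mul, Complex.norm_I, mul_one, Complex.norm_real, Real.norm_eq_abs]
    have hWlo : V / 2 ≤ ‖W‖ := by
      have h2 : ‖(v t : ℂ) * I‖ - ‖W - (v t : ℂ) * I‖ ≤ ‖W‖ := by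
        have h3 : (v t : ℂ) * I = W - (W - (v t : ℂ) * I) := by ring
        have h4 := norm_sub_le W (W - (v t : ℂ) * I)
        rw [← h3] at h4
        linarith
      rw [hvI] at h2
      linarith
    have hWhi : ‖W‖ ≤ 5 / 4 * V := by
      have h3 : W = (v t : ℂ) * I + (W - (v t : ℂ) * I) := by ring
      have h4 := norm_add_le ((v t : ℂ) * I) (W - (v t : ℂ) * I)
      rw [← h3, hvI] at h4
      linarith
    have hWpos : 0 < ‖W‖ := by linarith [hv0]
    have hWne : W ≠ 0 := norm_pos_iff.1 hWpos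
    have hW2 : ‖W‖ ^ 2 ≤ ε / 2 := by
      have := mul_le_mul hWhi hWhi hWpos.le (by positivity)
      nlinarith
    have hWre : 0 < W.re := by
      rw [hW, Complex.sub_re, hwre]
      linarith [hre x hx]
    have hε2 : 2 ≤ ε / ‖W‖ ^ 2 := by
      rw [le_div_iff₀ (by positivity)]
      linarith
    have hYre : 0 < (JJ ε L W).re := by
      rw [JJ_re_ATB]
      have : 0 < ε / ‖W‖ ^ 2 - 1 := by linarith
      positivity
    have hvIne : (v t : ℂ) * I ≠ 0 := by
      rw [← norm_pos_iff, hvI]; exact hv0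
    have hyline : JJ ε L ((v t : ℂ) * I) = (y t : ℂ) * I := JJ_line_ATB hL0 (hvne t ht)
    have hYd : ‖JJ ε L W - (y t : ℂ) * I‖ ≤ C₂ * ‖x - exp (t * I)‖ := by
      rw [← hyline, JJ_sub_ATB hWne hvIne, norm_neg, norm_div, norm_mul]
      have hLn : ‖(L : ℂ)‖ = L := by rw [Complex.norm_real, Real.norm_eq_abs, abs_of_pos hL0]
      rw [hLn]
      have h5 : ‖(ε : ℂ) / (W * ((v t : ℂ) * I)) + 1‖ ≤ 2 * ε / (V * V) + 1 := by
        refine (norm_add_le _ _).trans ?_
        rw [norm_one, norm_div, norm_mul, hvI, Complex.norm_real, Real.norm_eq_abs,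
          abs_of_pos hε]
        have h6 : ε / (‖W‖ * V) ≤ ε / (V / 2 * V) :=
          div_le_div_of_nonneg_left hε.le (by positivity)
            (mul_le_mul_of_nonneg_right hWlo hv0.le)
        have h7 : ε / (V / 2 * V) = 2 * ε / (V * V) := by
          field_simp
        linarith
      rw [hC₂]
      calc ‖W - (v t : ℂ) * I‖ * ‖(ε : ℂ) / (W * ((v t : ℂ) * I)) + 1‖ / L
          ≤ (Λ * ‖x - exp (t * I)‖) * (2 * ε / (V * V) + 1) / L := by
            refine div_le_div_of_nonneg_right ?_ hL0.le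
            exact mul_le_mul hWd h5 (norm_nonneg _) (by positivity)
        _ = Λ * (2 * ε / (V * V) + 1) / L * ‖x - exp (t * I)‖ := by ring
    have hYc : ‖JJ ε L W - (y t : ℂ) * I‖ ≤ c₁ := by
      refine hYd.trans ?_
      calc C₂ * ‖x - exp (t * I)‖ ≤ C₂ * (c₁ / C₂) := mul_le_mul_of_nonneg_left hx2 hC₂0.le
        _ = c₁ := by field_simp
    obtain ⟨hA, hB⟩ := hloc (JJ ε L W) hYre hYc
    constructor
    · show ‖SS (JJ ε L W) - ξ t‖ ≤ _
      calc ‖SS (JJ ε L W) - ξ t‖ ≤ C₁ * ‖JJ ε L W - (y t : ℂ) * I‖ := hA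
        _ ≤ C₁ * (C₂ * ‖x - exp (t * I)‖) := mul_le_mul_of_nonneg_left hYd hC₁.le
        _ = C₁ * C₂ * ‖x - exp (t * I)‖ := by ring
    · -- the derivative
      have hslt : Slt (JJ ε L W) := Or.inl hYre.ne'
      obtain ⟨hSd, -⟩ := hS1 _ hslt
      have hfd : HasDerivAt f (deriv f x) x :=
        (hUn.1.differentiableAt (isOpen_ball.mem_nhds hx)).hasDerivAt
      have hWd' : HasDerivAt (fun z => w - f z) (-deriv f x) x := by
        simpa using hfd.const_sub w
      have hJd : HasDerivAt (JJ ε L) ((-(ε / W ^ 2) - 1) / L) W := by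
        unfold JJ
        have h6 : HasDerivAt (fun z : ℂ => (ε : ℂ) / z) (-(ε / W ^ 2)) W := by
          have h7 := (hasDerivAt_inv hWne).const_mul (ε : ℂ)
          have h8 : (ε : ℂ) * -(W ^ 2)⁻¹ = -(ε / W ^ 2) := by
            rw [div_eq_mul_inv]; ring
          rw [h8] at h7
          exact h7
        exact (h6.sub (hasDerivAt_id W)).div_const _
      have hcomp : HasDerivAt (hh f θ ε L)
          (deriv SS (JJ ε L W) * ((-(ε / W ^ 2) - 1) / L) * (-deriv f x)) x := by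
        have h9 : HasDerivAt (fun z => SS (JJ ε L z)) (deriv SS (JJ ε L W) * ((-(ε / W ^ 2) - 1) / L))
            W := hSd.hasDerivAt.comp W hJd
        exact HasDerivAt.comp (h₂ := fun z => SS (JJ ε L z)) (h := fun z => w - f z) x h9 hWd'
      rw [hcomp.deriv, norm_mul, norm_mul, norm_neg, norm_div]
      have hLn : ‖(L : ℂ)‖ = L := by rw [Complex.norm_real, Real.norm_eq_abs, abs_of_pos hL0]
      rw [hLn]
      have h10 : 1 ≤ ‖-((ε : ℂ) / W ^ 2) - 1‖ := by
        have h11 : ‖-((ε : ℂ) / W ^ 2) - 1‖ = ‖(ε : ℂ) / W ^ 2 + 1‖ := by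
          rw [← norm_neg]; congr 1; ring
        rw [h11]
        have h12 : ‖(ε : ℂ) / W ^ 2‖ = ε / ‖W‖ ^ 2 := by
          rw [norm_div, norm_pow, Complex.norm_real, Real.norm_eq_abs, abs_of_pos hε]
        have h13 : ‖(ε : ℂ) / W ^ 2‖ ≤ ‖(ε : ℂ) / W ^ 2 + 1‖ + ‖(1 : ℂ)‖ := by
          have h14 := norm_sub_le ((ε : ℂ) / W ^ 2 + 1) 1
          rwa [add_sub_cancel_right] at h14
        rw [h12, norm_one] at h13
        linarith
      have h15 : κ ≤ ‖deriv f x‖ := hder x hx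
      refine (min_le_right _ _).trans ?_
      calc c₁ * κ / L = c₁ * (1 / L) * κ := by ring
        _ ≤ ‖deriv SS (JJ ε L W)‖ * (‖-((ε : ℂ) / W ^ 2) - 1‖ / L) * ‖deriv f x‖ := by
          refine mul_le_mul (mul_le_mul hB (div_le_div_of_nonneg_right h10 hL0.le)
            (by positivity) (norm_nonneg _)) h15 hκ.le (by positivity)

end Pool.Agent.Helper72.SR
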